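import Mathlib
import Pool.Agent.H510R2.Div

/-!
# Points of a rotation in a small arc, and small denominators for many multiples
-/

set_option autoImplicit false

namespace Pool.Agent.N251.IM

open Finset

/-- Separation inside a block of length the denominator. -/
theorem sep (β : ℝ) (x : ℚ) (N : ℕ)
    (hx : |β - x| ≤ 1 / ((((2 * N : ℕ) : ℝ) + 1) * x.den)) (j : ℕ) (hj : 1 ≤ j)
    (hjr : j < x.den) (hjN : j ≤ N) (m : ℤ) : 1 / (2 * (x.den : ℝ)) ≤ |j * β - m| := by
  have hr : (0 : ℝ) < x.den := by exact_mod_cast x.pos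
  have h1 : (x : ℝ) = x.num / x.den := by exact_mod_cast (Rat.num_div_den x).symm
  have h2 : (j : ℤ) * x.num - m * x.den ≠ 0 := by
    intro h
    have h3 : (x.den : ℤ) ∣ (j : ℤ) * x.num := ⟨m, by linarith⟩
    have h4 : IsCoprime (x.den : ℤ) x.num := by
      rw [Int.isCoprime_iff_gcd_eq_one, Int.gcd_comm]
      exact x.reduced
    have h5 : (x.den : ℤ) ∣ (j : ℤ) := h4.dvd_of_dvd_mul_right h3
    have h6 := Int.le_of_dvd (by exact_mod_cast hj) h5
    omega
  have h3 : (1 : ℝ) ≤ |((j : ℝ) * x.num - m * x.den)| := by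
    have := Int.one_le_abs h2
    exact_mod_cast this
  have h4 : 1 / (x.den : ℝ) ≤ |j * (x : ℝ) - m| := by
    rw [h1]
    have : (j : ℝ) * (x.num / x.den) - m = (j * x.num - m * x.den) / x.den := by
      field_simp
    rw [this, abs_div, abs_of_pos hr]
    gcongr
  have h5 : |(j : ℝ) * (β - x)| ≤ 1 / (2 * x.den) := by
    rw [abs_mul, abs_of_nonneg (Nat.cast_nonneg j)]
    calc (j : ℝ) * |β - x| ≤ N * (1 / ((((2 * N : ℕ) : ℝ) + 1) * x.den)) := by gcongr
      _ ≤ 1 / (2 * x.den) := by
        rw [mul_one_div, div_le_div_iff₀ (by positivity) (by positivity)]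
        push_cast
        nlinarith
  have h6 : |j * (x : ℝ) - m| ≤ |j * β - m| + |(j : ℝ) * (β - x)| := by
    have : j * (x : ℝ) - m = (j * β - m) - (j : ℝ) * (β - x) := by ring
    rw [this]
    exact abs_sub _ _
  have h7 : 1 / (x.den : ℝ) = 1 / (2 * x.den) + 1 / (2 * x.den) := by
    field_simp
    norm_num
  linarith

/-- The number of points of a rotation in an arc. -/
theorem block (β σ δ : ℝ) (hδ : 0 ≤ δ) (N : ℕ) (x : ℚ) (hxN : x.den ≤ 2 * N)
    (hx : |β - x| ≤ 1 / ((((2 * N : ℕ) : ℝ) + 1) * x.den)) (A : Finset ℕ)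
    (hA : ∀ n ∈ A, 1 ≤ n ∧ n ≤ N ∧ ∃ m : ℤ, |n * β + σ - m| ≤ δ) :
    (A.card : ℝ) ≤ 12 * δ * N + 6 * N * (1 / x.den) := by
  classical
  have hr : 0 < x.den := x.pos
  have hrR : (0 : ℝ) < x.den := by exact_mod_cast hr
  set L : ℕ := ⌊2 * x.den * δ⌋₊ with hL
  have hpos : 0 ≤ 2 * x.den * δ := by positivity
  have hL1 : (L : ℝ) ≤ 2 * x.den * δ := Nat.floor_le hpos
  have hL2 : 2 * x.den * δ < L + 1 := Nat.lt_floor_add_one _
  have hm' : ∀ n, ∃ m : ℤ, n ∈ A → |n * β + σ - m| ≤ δ := by
    intro n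
    by_cases h : n ∈ A
    · obtain ⟨m, hm⟩ := (hA n h).2.2
      exact ⟨m, fun _ => hm⟩
    · exact ⟨0, fun h' => absurd h' h⟩
  choose m hm using hm'
  have h1 : ∀ k ∈ A.image (fun n => n / x.den),
      (A.filter (fun n => n / x.den = k)).card ≤ 2 * L + 2 := by
    intro k _
    have hmap : Set.MapsTo (fun n : ℕ => ⌊2 * x.den * ((n : ℝ) * β + σ - m n)⌋)
        (A.filter (fun n => n / x.den = k)) (Finset.Icc (-((L : ℤ) + 1)) (L : ℤ)) := by
      intro n hn
      have hnA : n ∈ A := (Finset.mem_filter.1 hn).1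
      have ht := abs_le.1 (hm n hnA)
      rw [Finset.mem_coe, Finset.mem_Icc]
      constructor
      · rw [Int.le_floor]
        push_cast
        have := mul_le_mul_of_nonneg_left ht.1 (by positivity : (0 : ℝ) ≤ 2 * x.den)
        nlinarith
      · have h2 : ⌊2 * x.den * ((n : ℝ) * β + σ - m n)⌋ < (L : ℤ) + 1 := by
          rw [Int.floor_lt]
          push_cast
          have := mul_le_mul_of_nonneg_left ht.2 (by positivity : (0 : ℝ) ≤ 2 * x.den)
          linarith
        exact Int.lt_add_one_iff.1 h2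
    have key : ∀ n n' : ℕ, n ∈ A.filter (fun n => n / x.den = k) →
        n' ∈ A.filter (fun n => n / x.den = k) → n < n' →
        ⌊2 * x.den * ((n : ℝ) * β + σ - m n)⌋ ≠ ⌊2 * x.den * ((n' : ℝ) * β + σ - m n')⌋ := by
      intro n n' hn hn' hlt heq
      rw [Finset.mem_filter] at hn hn'
      have h2 := Int.abs_sub_lt_one_of_floor_eq_floor heq
      obtain ⟨j, rfl⟩ : ∃ j, n' = n + j := ⟨n' - n, by omega⟩
      have hj1 : 1 ≤ j := by omega
      have hjr : j < x.den := by
        have e1 := Nat.div_add_mod n x.den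
        have e2 := Nat.div_add_mod (n + j) x.den
        have e3 := Nat.mod_lt (n + j) hr
        rw [hn.2] at e1
        rw [hn'.2] at e2
        omega
      have hjN : j ≤ N := by
        have := (hA _ hn'.1).2.1
        omega
      have h3 := sep β x N hx j hj1 hjr hjN (m (n + j) - m n)
      have h4 : 2 * x.den * ((n : ℝ) * β + σ - m n) -
          2 * x.den * (((n + j : ℕ) : ℝ) * β + σ - m (n + j)) =
          -(2 * x.den * (j * β - ((m (n + j) - m n : ℤ) : ℝ))) := by
        push_cast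
        ring
      rw [h4, abs_neg, abs_mul, abs_of_pos (by positivity : (0 : ℝ) < 2 * x.den)] at h2
      rw [div_le_iff₀ (by positivity)] at h3
      linarith
    have hinj : Set.InjOn (fun n : ℕ => ⌊2 * x.den * ((n : ℝ) * β + σ - m n)⌋)
        (A.filter (fun n => n / x.den = k)) := by
      intro n hn n' hn' heq
      rcases lt_trichotomy n n' with h | h | h
      · exact absurd heq (key n n' hn hn' h)
      · exact h
      · exact absurd heq.symm (key n' n hn' hn h)
    calc (A.filter (fun n => n / x.den = k)).card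
        ≤ (Finset.Icc (-((L : ℤ) + 1)) (L : ℤ)).card := Finset.card_le_card_of_injOn _ hmap hinj
      _ = 2 * L + 2 := by
        rw [Int.card_Icc]
        omega
  have h2 := Finset.card_le_mul_card_image A (2 * L + 2) h1
  have h3 : (A.image (fun n => n / x.den)).card ≤ N / x.den + 1 := by
    have : A.image (fun n => n / x.den) ⊆ range (N / x.den + 1) := by
      intro k hk
      rw [Finset.mem_image] at hk
      obtain ⟨n, hn, rfl⟩ := hk
      rw [Finset.mem_range]
      have := Nat.div_le_div_right (c := x.den) (hA n hn).2.1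
      omega
    simpa using Finset.card_le_card this
  have h4 : A.card ≤ (2 * L + 2) * (N / x.den + 1) := h2.trans (Nat.mul_le_mul_left _ h3)
  have h5 : (A.card : ℝ) ≤ (2 * L + 2) * (((N / x.den : ℕ) : ℝ) + 1) := by exact_mod_cast h4
  have h6 : ((N / x.den : ℕ) : ℝ) ≤ (N : ℝ) / x.den := Nat.cast_div_le
  have h7 : (x.den : ℝ) ≤ 2 * N := by exact_mod_cast hxN
  have h8 : (1 : ℝ) / 2 ≤ N / x.den := by
    rw [div_le_div_iff₀ (by norm_num) hrR]
    linarith
  calc (A.card : ℝ) ≤ (2 * L + 2) * (((N / x.den : ℕ) : ℝ) + 1) := h5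
    _ ≤ (4 * x.den * δ + 2) * ((N : ℝ) / x.den + 1) := by
        have h9 : (2 * (L : ℝ) + 2) ≤ 4 * x.den * δ + 2 := by linarith
        exact mul_le_mul h9 (by linarith) (by positivity) (by positivity)
    _ = 4 * δ * N + 4 * x.den * δ + 2 * (N / x.den) + 2 := by
        field_simp
        ring
    _ ≤ 4 * δ * N + 4 * (2 * N) * δ + 2 * (N / x.den) + 4 * (N / x.den) := by
        gcongr
        linarith
    _ = 12 * δ * N + 6 * N * (1 / x.den) := by ring

end Pool.Agent.N251.IM
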