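import Mathlib
import Pool.Agent.H510R2.Div
import Pool.Agent.N251.IM.Block

/-!
# Few multiples of a badly approximable number have small denominators
-/

set_option autoImplicit false

namespace Pool.Agent.N251.IM

open Finset

/-- Sum over the integers `m` with `m ξ` close to an integer. -/
theorem spaced (ξ c τ : ℝ) (hc : 0 < c) (hτ : 0 < τ)
    (hroth : ∀ q : ℕ, 1 ≤ q → ∀ p : ℤ, c ≤ (q : ℝ) ^ (1 + τ) * |q * ξ - p|) (N : ℕ) (hN : 1 ≤ N)
    (M : Finset ℕ) (hM : ∀ m ∈ M, 1 ≤ m ∧ ∃ s : ℤ, |m * ξ - s| ≤ 1 / (2 * N)) :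
    ∑ m ∈ M, (m : ℝ) ^ (-(1 + τ)) ≤ (c * N)⁻¹ * ∑' k : ℕ, (k : ℝ) ^ (-(1 + τ)) := by
  classical
  have hNR : (0 : ℝ) < N := by exact_mod_cast hN
  set S : ℝ := (c * N) ^ (1 / (1 + τ)) with hS
  have hS0 : 0 < S := by positivity
  have hSp : S ^ (1 + τ) = c * N := by
    rw [hS, ← Real.rpow_mul (by positivity), one_div_mul_cancel (by positivity), Real.rpow_one]
  have big : ∀ d : ℕ, 1 ≤ d → (∃ s : ℤ, |d * ξ - s| ≤ 1 / N) → S ≤ d := by
    rintro d hd ⟨s, hs⟩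
    have h1 := hroth d hd s
    have h2 : c ≤ (d : ℝ) ^ (1 + τ) * (1 / N) := h1.trans (by gcongr)
    rw [mul_one_div, le_div_iff₀ hNR] at h2
    by_contra h
    push Not at h
    have h3 : (d : ℝ) ^ (1 + τ) < S ^ (1 + τ) :=
      Real.rpow_lt_rpow (Nat.cast_nonneg d) h (by positivity)
    rw [hSp] at h3
    linarith
  have h12 : 1 / (2 * (N : ℝ)) ≤ 1 / N := by
    apply one_div_le_one_div_of_le hNR
    linarith
  have big1 : ∀ m ∈ M, S ≤ m := by
    intro m hm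
    obtain ⟨h1, s, hs⟩ := hM m hm
    exact big m h1 ⟨s, hs.trans h12⟩
  have big2 : ∀ m ∈ M, ∀ m' ∈ M, m < m' → S ≤ ((m' : ℝ) - m) := by
    intro m hm m' hm' hlt
    obtain ⟨h1, s, hs⟩ := hM m hm
    obtain ⟨h1', s', hs'⟩ := hM m' hm'
    have h2 := big (m' - m) (by omega) ⟨s' - s, ?_⟩
    · rwa [Nat.cast_sub hlt.le] at h2
    · rw [Nat.cast_sub hlt.le]
      push_cast
      have e : ((m' : ℝ) - m) * ξ - (s' - s) = (m' * ξ - s') - (m * ξ - s) := by ring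
      rw [e]
      refine (abs_sub _ _).trans ?_
      have e2 : 1 / (N : ℝ) = 1 / (2 * N) + 1 / (2 * N) := by
        field_simp
        norm_num
      rw [e2]
      linarith
  set g : ℕ → ℕ := fun m => ⌊(m : ℝ) / S⌋₊ with hg
  have ginj : Set.InjOn g M := by
    have key : ∀ m ∈ M, ∀ m' ∈ M, m < m' → g m ≠ g m' := by
      intro m hm m' hm' hlt heq
      have h1 := big2 m hm m' hm' hlt
      have h2 : (m : ℝ) / S + 1 ≤ m' / S := by
        rw [div_add_one hS0.ne']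
        gcongr
        linarith
      have h3 : g m + 1 ≤ g m' := by
        simp only [hg]
        rw [← Nat.floor_add_one (by positivity)]
        exact Nat.floor_le_floor h2
      omega
    intro m hm m' hm' heq
    rcases lt_trichotomy m m' with h | h | h
    · exact absurd heq (key m hm m' hm' h)
    · exact h
    · exact absurd heq.symm (key m' hm' m hm h)
  have gone : ∀ m ∈ M, 1 ≤ g m := by
    intro m hm
    simp only [hg]
    rw [Nat.one_le_floor_iff]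
    rw [le_div_iff₀ hS0]
    linarith [big1 m hm]
  have hterm : ∀ m ∈ M, (m : ℝ) ^ (-(1 + τ)) ≤ (c * N)⁻¹ * ((g m : ℕ) : ℝ) ^ (-(1 + τ)) := by
    intro m hm
    have h1 : ((g m : ℕ) : ℝ) ≤ m / S := Nat.floor_le (by positivity)
    have hg0 : (0 : ℝ) < ((g m : ℕ) : ℝ) := by exact_mod_cast gone m hm
    have h2 : ((g m : ℕ) : ℝ) * S ≤ m := by rwa [le_div_iff₀ hS0] at h1
    have h3 : (m : ℝ) ^ (-(1 + τ)) ≤ (((g m : ℕ) : ℝ) * S) ^ (-(1 + τ)) :=
      Real.rpow_le_rpow_of_nonpos (by positivity) h2 (by linarith)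
    refine h3.trans (le_of_eq ?_)
    rw [Real.mul_rpow hg0.le hS0.le, Real.rpow_neg hS0.le, hSp]
    ring
  have hsum : Summable (fun k : ℕ => (k : ℝ) ^ (-(1 + τ))) :=
    Real.summable_nat_rpow.2 (by linarith)
  calc ∑ m ∈ M, (m : ℝ) ^ (-(1 + τ)) ≤ ∑ m ∈ M, (c * N)⁻¹ * ((g m : ℕ) : ℝ) ^ (-(1 + τ)) :=
        Finset.sum_le_sum hterm
    _ = (c * N)⁻¹ * ∑ k ∈ M.image g, (k : ℝ) ^ (-(1 + τ)) := by
        rw [← Finset.mul_sum, Finset.sum_image ginj]
    _ ≤ (c * N)⁻¹ * ∑' k : ℕ, (k : ℝ) ^ (-(1 + τ)) := by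
        gcongr
        exact hsum.sum_le_tsum _ (fun k _ => by positivity)

/-- The sum of the reciprocals of the denominators. -/
theorem den_sum (ξ c τ κ : ℝ) (hc : 0 < c) (hτ : 0 < τ) (hκ : κ < 1)
    (hroth : ∀ q : ℕ, 1 ≤ q → ∀ p : ℤ, c ≤ (q : ℝ) ^ (1 + τ) * |q * ξ - p|) :
    ∃ C : ℝ, 0 < C ∧ ∀ N : ℕ, 1 ≤ N → ∀ x : ℕ → ℚ,
      (∀ q : ℕ, |q * ξ - x q| ≤ 1 / ((((2 * N : ℕ) : ℝ) + 1) * (x q).den) ∧
        (x q).den ≤ 2 * N) →
      ∑ q ∈ Icc 1 ⌊(N : ℝ) ^ κ⌋₊, (1 / ((x q).den : ℝ)) ≤ C * (N : ℝ) ^ (κ - 1 + 4 * τ) := by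
  classical
  obtain ⟨C1, hC1, hdiv⟩ := Pool.Agent.H510R2.divisor_bound τ hτ
  set Z : ℝ := ∑' k : ℕ, (k : ℝ) ^ (-(1 + τ)) with hZ
  have hZ0 : 0 ≤ Z := tsum_nonneg fun k => by positivity
  refine ⟨C1 * 2 ^ (2 * τ) * (Z + 1) / c, by positivity, fun N hN x hx => ?_⟩
  have hNR : (0 : ℝ) < N := by exact_mod_cast hN
  have hN1 : (1 : ℝ) ≤ N := by exact_mod_cast hN
  set Y : ℝ := (N : ℝ) ^ κ with hY
  have hY0 : 0 < Y := by positivity
  have hYN : Y ≤ N := by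
    calc Y ≤ (N : ℝ) ^ (1 : ℝ) := Real.rpow_le_rpow_of_exponent_le hN1 hκ.le
      _ = N := Real.rpow_one _
  set I : Finset ℕ := Icc 1 ⌊Y⌋₊ with hI
  have hIq : ∀ q ∈ I, 1 ≤ q ∧ (q : ℝ) ≤ Y := by
    intro q hq
    rw [hI, Finset.mem_Icc] at hq
    exact ⟨hq.1, (Nat.le_floor_iff hY0.le).1 hq.2⟩
  set f : ℕ → ℕ := fun q => q * (x q).den with hf
  have hden : ∀ q, 0 < (x q).den := fun q => (x q).pos
  have hfpos : ∀ q ∈ I, 0 < f q := fun q hq => Nat.mul_pos (hIq q hq).1 (hden q)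
  have hfle : ∀ q ∈ I, (f q : ℝ) ≤ 2 * (N : ℝ) ^ 2 := by
    intro q hq
    have h1 := (hIq q hq).2.trans hYN
    have h2 : ((x q).den : ℝ) ≤ 2 * N := by exact_mod_cast (hx q).2
    simp only [hf]
    push_cast
    calc (q : ℝ) * (x q).den ≤ N * (2 * N) := by gcongr
      _ = 2 * (N : ℝ) ^ 2 := by ring
  have hclose : ∀ m ∈ I.image f, 1 ≤ m ∧ ∃ s : ℤ, |m * ξ - s| ≤ 1 / (2 * N) := by
    intro m hm
    rw [Finset.mem_image] at hm
    obtain ⟨q, hq, rfl⟩ := hm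
    refine ⟨hfpos q hq, (x q).num, ?_⟩
    have hd : (0 : ℝ) < (x q).den := by exact_mod_cast hden q
    have h1 : ((x q : ℚ) : ℝ) = (x q).num / (x q).den := by
      exact_mod_cast (Rat.num_div_den (x q)).symm
    have h2 : ((f q : ℕ) : ℝ) * ξ - (x q).num = (x q).den * (q * ξ - x q) := by
      rw [h1]
      simp only [hf]
      push_cast
      field_simp
    rw [h2, abs_mul, abs_of_pos hd]
    calc ((x q).den : ℝ) * |q * ξ - x q|
        ≤ (x q).den * (1 / ((((2 * N : ℕ) : ℝ) + 1) * (x q).den)) := by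
          gcongr
          exact (hx q).1
      _ = 1 / (((2 * N : ℕ) : ℝ) + 1) := by field_simp
      _ ≤ 1 / (2 * N) := by
          apply one_div_le_one_div_of_le (by positivity)
          push_cast
          linarith
  have hspaced := spaced ξ c τ hc hτ hroth N hN (I.image f) hclose
  have hfib : ∀ m ∈ I.image f, ((I.filter (fun q => f q = m)).card : ℝ) ≤ C1 * (m : ℝ) ^ τ := by
    intro m hm
    have hm1 := (hclose m hm).1
    refine le_trans ?_ (hdiv m hm1)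
    have : I.filter (fun q => f q = m) ⊆ m.divisors := by
      intro q hq
      rw [Finset.mem_filter] at hq
      rw [Nat.mem_divisors]
      exact ⟨⟨(x q).den, hq.2.symm⟩, by omega⟩
    exact_mod_cast Finset.card_le_card this
  calc ∑ q ∈ I, (1 / ((x q).den : ℝ)) ≤ ∑ q ∈ I, Y * (1 / (f q : ℝ)) := by
        apply Finset.sum_le_sum
        intro q hq
        have hq0 : (0 : ℝ) < q := by exact_mod_cast (hIq q hq).1
        have hd : (0 : ℝ) < (x q).den := by exact_mod_cast hden q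
        simp only [hf]
        push_cast
        rw [mul_one_div, div_le_div_iff₀ hd (by positivity), one_mul]
        exact mul_le_mul_of_nonneg_right (hIq q hq).2 hd.le
    _ = Y * ∑ q ∈ I, (1 / (f q : ℝ)) := by rw [Finset.mul_sum]
    _ = Y * ∑ m ∈ I.image f, ((I.filter (fun q => f q = m)).card : ℝ) * (1 / (m : ℝ)) := by
        rw [Finset.sum_comp (fun m : ℕ => 1 / (m : ℝ)) f]
        simp only [nsmul_eq_mul]
    _ ≤ Y * ∑ m ∈ I.image f, (C1 * (2 * (N : ℝ) ^ 2) ^ (2 * τ)) * (m : ℝ) ^ (-(1 + τ)) := by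
        apply mul_le_mul_of_nonneg_left _ hY0.le
        apply Finset.sum_le_sum
        intro m hm
        have hm0 : (0 : ℝ) < m := by exact_mod_cast (hclose m hm).1
        have hmle : (m : ℝ) ≤ 2 * (N : ℝ) ^ 2 := by
          rw [Finset.mem_image] at hm
          obtain ⟨q, hq, rfl⟩ := hm
          exact hfle q hq
        have e1 : (1 : ℝ) / m = (m : ℝ) ^ (-1 : ℝ) := by
          rw [Real.rpow_neg_one, one_div]
        calc ((I.filter (fun q => f q = m)).card : ℝ) * (1 / (m : ℝ))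
            ≤ (C1 * (m : ℝ) ^ τ) * (1 / (m : ℝ)) :=
              mul_le_mul_of_nonneg_right (hfib m hm) (by positivity)
          _ = C1 * (m : ℝ) ^ (2 * τ) * (m : ℝ) ^ (-(1 + τ)) := by
              rw [e1, mul_assoc, mul_assoc, ← Real.rpow_add hm0, ← Real.rpow_add hm0]
              ring_nf
          _ ≤ (C1 * (2 * (N : ℝ) ^ 2) ^ (2 * τ)) * (m : ℝ) ^ (-(1 + τ)) := by
              gcongr
    _ = Y * (C1 * (2 * (N : ℝ) ^ 2) ^ (2 * τ)) * ∑ m ∈ I.image f, (m : ℝ) ^ (-(1 + τ)) := by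
        rw [← Finset.mul_sum]
        ring
    _ ≤ Y * (C1 * (2 * (N : ℝ) ^ 2) ^ (2 * τ)) * ((c * N)⁻¹ * (Z + 1)) := by
        apply mul_le_mul_of_nonneg_left _ (by positivity)
        refine hspaced.trans ?_
        gcongr
        linarith
    _ = C1 * 2 ^ (2 * τ) * (Z + 1) / c * (N : ℝ) ^ (κ - 1 + 4 * τ) := by
        have e2 : ((2 : ℝ) * (N : ℝ) ^ 2) ^ (2 * τ) = 2 ^ (2 * τ) * (N : ℝ) ^ (4 * τ) := by
          rw [Real.mul_rpow (by norm_num) (by positivity), ← Real.rpow_natCast (N : ℝ) 2,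
            ← Real.rpow_mul hNR.le]
          congr 2
          push_cast
          ring
        have e3 : (N : ℝ) ^ (κ - 1 + 4 * τ) = Y * (N : ℝ)⁻¹ * (N : ℝ) ^ (4 * τ) := by
          rw [Real.rpow_add hNR, Real.rpow_sub hNR, Real.rpow_one, hY]
          ring
        rw [e2, e3, mul_inv]
        ring

end Pool.Agent.N251.IM
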