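import Mathlib
import Pool.Agent.N251.IM.Den
import Pool.Agent.N965.LN.Log

/-!
# Counting the multiples `n ξ + ρ` which are close to a rational number
-/

set_option autoImplicit false

namespace Pool.Agent.N251.IM

open Finset Filter

/-- Roth's property. -/
def Roth (ξ : ℝ) : Prop := ∀ τ : ℝ, 0 < τ → ∃ c : ℝ, 0 < c ∧ ∀ q : ℕ, 1 ≤ q → ∀ p : ℤ,
  c ≤ (q : ℝ) ^ (1 + τ) * |q * ξ - p|

/-- The count. -/
theorem count (ξ : ℝ) (hroth : Roth ξ) (κ κ' : ℝ) (hκ : κ < 1) (hκκ' : κ < κ') :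
    ∃ N0 : ℕ, ∀ N : ℕ, N0 ≤ N → ∀ (ρ : ℝ) (ψ : ℕ → ℝ), (∀ q, 0 ≤ ψ q) → ∀ A : Finset ℕ,
      (∀ n ∈ A, 1 ≤ n ∧ n ≤ N ∧ ∃ (p : ℤ) (q : ℕ), 1 ≤ q ∧ (q : ℝ) ≤ (N : ℝ) ^ κ ∧
        |n * ξ + ρ - (p : ℝ) / q| ≤ ψ q / q) →
      (A.card : ℝ) ≤ 12 * N * (∑ q ∈ Icc 1 ⌊(N : ℝ) ^ κ⌋₊, ψ q) + (N : ℝ) ^ κ' := by
  classical
  set τ : ℝ := (κ' - κ) / 8 with hτd
  have hτ : 0 < τ := by
    rw [hτd]
    linarith
  obtain ⟨c, hc, hr⟩ := hroth τ hτ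
  obtain ⟨C, hC, hden⟩ := den_sum ξ c τ κ hc hτ hκ hr
  have ht : Tendsto (fun N : ℕ => (N : ℝ) ^ ((κ' - κ) / 2)) atTop atTop :=
    (tendsto_rpow_atTop (by linarith)).comp tendsto_natCast_atTop_atTop
  obtain ⟨N0, hN0⟩ := eventually_atTop.1 (ht.eventually_ge_atTop (6 * C))
  refine ⟨N0 + 1, fun N hN ρ ψ hψ A hA => ?_⟩
  have hN1 : 1 ≤ N := by omega
  have hNR : (0 : ℝ) < N := by exact_mod_cast hN1
  have hbig := hN0 N (by omega)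
  have hx : ∀ q : ℕ, ∃ x : ℚ, |(q : ℝ) * ξ - x| ≤ 1 / ((((2 * N : ℕ) : ℝ) + 1) * x.den) ∧
      x.den ≤ 2 * N := fun q => Real.exists_rat_abs_sub_le_and_den_le _ (by omega)
  choose x hx using hx
  set Y : ℝ := (N : ℝ) ^ κ with hY
  have hY0 : 0 < Y := by positivity
  have hsub : A ⊆ (Icc 1 ⌊Y⌋₊).biUnion
      (fun q => A.filter (fun n : ℕ => ∃ p : ℤ, 1 ≤ q ∧ |n * ξ + ρ - (p : ℝ) / q| ≤ ψ q / q)) := by
    intro n hn
    obtain ⟨-, -, p, q, h1, h2, h3⟩ := hA n hn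
    rw [Finset.mem_biUnion]
    refine ⟨q, Finset.mem_Icc.2 ⟨h1, Nat.le_floor h2⟩, Finset.mem_filter.2 ⟨hn, p, h1, h3⟩⟩
  have hone : ∀ q ∈ Icc 1 ⌊Y⌋₊,
      ((A.filter (fun n : ℕ => ∃ p : ℤ, 1 ≤ q ∧ |n * ξ + ρ - (p : ℝ) / q| ≤ ψ q / q)).card : ℝ) ≤
        12 * ψ q * N + 6 * N * (1 / (x q).den) := by
    intro q _
    refine block (q * ξ) (q * ρ) (ψ q) (hψ q) N (x q) (hx q).2 (hx q).1 _ ?_
    intro n hn
    rw [Finset.mem_filter] at hn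
    obtain ⟨hnA, p, hq1, hle⟩ := hn
    refine ⟨(hA n hnA).1, (hA n hnA).2.1, p, ?_⟩
    have hq0 : (0 : ℝ) < q := by exact_mod_cast hq1
    have e : (n : ℝ) * (q * ξ) + q * ρ - p = q * (n * ξ + ρ - p / q) := by
      field_simp
    rw [e, abs_mul, abs_of_pos hq0]
    calc (q : ℝ) * |n * ξ + ρ - p / q| ≤ q * (ψ q / q) := by gcongr
      _ = ψ q := by field_simp
  have h1 : (A.card : ℝ) ≤ ∑ q ∈ Icc 1 ⌊Y⌋₊, (12 * ψ q * N + 6 * N * (1 / ((x q).den : ℝ))) := by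
    have h2 := (Finset.card_le_card hsub).trans Finset.card_biUnion_le
    calc (A.card : ℝ) ≤ ∑ q ∈ Icc 1 ⌊Y⌋₊, ((A.filter
          (fun n : ℕ => ∃ p : ℤ, 1 ≤ q ∧ |n * ξ + ρ - (p : ℝ) / q| ≤ ψ q / q)).card : ℝ) := by
          rw [← Nat.cast_sum]
          exact Nat.cast_le.2 h2
      _ ≤ _ := Finset.sum_le_sum hone
  refine h1.trans ?_
  rw [Finset.sum_add_distrib, ← Finset.mul_sum, ← Finset.sum_mul, ← Finset.mul_sum]
  have h3 := hden N hN1 x hx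
  have h4 : 6 * (N : ℝ) * ∑ q ∈ Icc 1 ⌊Y⌋₊, (1 / ((x q).den : ℝ)) ≤ (N : ℝ) ^ κ' := by
    calc 6 * (N : ℝ) * ∑ q ∈ Icc 1 ⌊Y⌋₊, (1 / ((x q).den : ℝ))
        ≤ 6 * (N : ℝ) * (C * (N : ℝ) ^ (κ - 1 + 4 * τ)) := by gcongr
      _ = (6 * C) * (N : ℝ) ^ (κ + (κ' - κ) / 2) := by
          have e : (N : ℝ) ^ (κ + (κ' - κ) / 2) = (N : ℝ) ^ (κ - 1 + 4 * τ) * N := by
            rw [← Real.rpow_add_one hNR.ne']
            congr 1
            rw [hτd]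
            ring
          rw [e]
          ring
      _ ≤ (N : ℝ) ^ ((κ' - κ) / 2) * (N : ℝ) ^ (κ + (κ' - κ) / 2) := by gcongr
      _ = (N : ℝ) ^ κ' := by
          rw [← Real.rpow_add hNR]
          congr 1
          ring
  have h5 : 12 * (∑ q ∈ Icc 1 ⌊Y⌋₊, ψ q) * (N : ℝ) = 12 * N * (∑ q ∈ Icc 1 ⌊Y⌋₊, ψ q) := by ring
  linarith

/-- Density zero. -/
theorem density (ξ : ℝ) (hroth : Roth ξ) (κ : ℝ) (hκ0 : 0 ≤ κ) (hκ : κ < 1) (ψ : ℕ → ℝ)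
    (hψ : ∀ q, 0 ≤ ψ q) (hs : Summable ψ) (g : ℕ → ℝ) (hg : Tendsto g atTop atTop) (η : ℝ)
    (hη : 0 < η) :
    ∃ N0 : ℕ, ∀ N : ℕ, N0 ≤ N → ∀ (ρ : ℝ) (A : Finset ℕ),
      (∀ n ∈ A, 1 ≤ n ∧ n ≤ N ∧ ∃ (p : ℤ) (q : ℕ), 1 ≤ q ∧ g n ≤ q ∧ (q : ℝ) ≤ (n : ℝ) ^ κ ∧
        |n * ξ + ρ - (p : ℝ) / q| ≤ ψ q / q) → (A.card : ℝ) ≤ η * N := by
  classical
  obtain ⟨N1, hN1⟩ := count ξ hroth κ ((1 + κ) / 2) hκ (by linarith)
  have ht := tendsto_sum_nat_add ψ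
  obtain ⟨T, hT⟩ := eventually_atTop.1 ((tendsto_order.1 ht).2 (η / 48) (by positivity))
  have hT' : ∑' k, ψ (k + T) < η / 48 := hT T le_rfl
  obtain ⟨n0, hn0⟩ := eventually_atTop.1 (hg.eventually_ge_atTop (T : ℝ))
  have hlim : Tendsto (fun N : ℕ => (N : ℝ) ^ ((1 - κ) / 2)) atTop atTop :=
    (tendsto_rpow_atTop (by linarith)).comp tendsto_natCast_atTop_atTop
  obtain ⟨N2, hN2⟩ := eventually_atTop.1 (hlim.eventually_ge_atTop (4 / η))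
  obtain ⟨N3, hN3⟩ := exists_nat_ge (4 * (n0 : ℝ) / η)
  refine ⟨N1 + N2 + N3 + 1, fun N hN ρ A hA => ?_⟩
  have hNR : (0 : ℝ) < N := by
    have : 0 < N := by omega
    exact_mod_cast this
  set B : Finset ℕ := A.filter (fun n => n0 ≤ n) with hB
  have hcard : A.card ≤ n0 + B.card := by
    have : A ⊆ range n0 ∪ B := by
      intro n hn
      rw [Finset.mem_union, Finset.mem_range, hB, Finset.mem_filter]
      by_cases h : n < n0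
      · exact Or.inl h
      · exact Or.inr ⟨hn, by omega⟩
    refine (Finset.card_le_card this).trans ((Finset.card_union_le _ _).trans ?_)
    rw [Finset.card_range]
  set φ : ℕ → ℝ := fun q => if T ≤ q then ψ q else 0 with hφ
  have hφ0 : ∀ q, 0 ≤ φ q := by
    intro q
    simp only [hφ]
    split_ifs
    · exact hψ q
    · exact le_rfl
  have h1 := hN1 N (by omega) ρ φ hφ0 B (by
    intro n hn
    rw [hB, Finset.mem_filter] at hn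
    obtain ⟨h1, h2, p, q, h3, h4, h5, h6⟩ := hA n hn.1
    refine ⟨h1, h2, p, q, h3, h5.trans ?_, ?_⟩
    · exact Real.rpow_le_rpow (Nat.cast_nonneg n) (by exact_mod_cast h2) hκ0
    · have h7 : T ≤ q := by exact_mod_cast (hn0 n hn.2).trans h4
      simp only [hφ]
      rw [if_pos h7]
      exact h6)
  have h2 : ∑ q ∈ Icc 1 ⌊(N : ℝ) ^ κ⌋₊, φ q ≤ η / 48 := by
    have hs1 : Summable φ := Summable.of_nonneg_of_le hφ0 (fun q => by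
      simp only [hφ]
      split_ifs
      · exact le_rfl
      · exact hψ q) hs
    refine (hs1.sum_le_tsum _ (fun k _ => hφ0 k)).trans ?_
    rw [← hs1.sum_add_tsum_nat_add T]
    have e1 : ∑ i ∈ range T, φ i = 0 := by
      apply Finset.sum_eq_zero
      intro i hi
      rw [Finset.mem_range] at hi
      simp only [hφ]
      rw [if_neg (by omega)]
    have e2 : ∑' i, φ (i + T) = ∑' i, ψ (i + T) := by
      congr 1
      funext i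
      simp only [hφ]
      rw [if_pos (by omega)]
    rw [e1, e2, zero_add]
    exact hT'.le
  have h3 : (N : ℝ) ^ ((1 + κ) / 2) ≤ η / 4 * N := by
    have h4 := hN2 N (by omega)
    have h5 : (N : ℝ) = (N : ℝ) ^ ((1 + κ) / 2) * (N : ℝ) ^ ((1 - κ) / 2) := by
      rw [← Real.rpow_add hNR]
      have : (1 + κ) / 2 + (1 - κ) / 2 = 1 := by ring
      rw [this, Real.rpow_one]
    have h6 : 1 ≤ η / 4 * (N : ℝ) ^ ((1 - κ) / 2) := by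
      rw [div_le_iff₀ hη] at h4
      linarith
    calc (N : ℝ) ^ ((1 + κ) / 2) ≤ (N : ℝ) ^ ((1 + κ) / 2) * (η / 4 * (N : ℝ) ^ ((1 - κ) / 2)) :=
          le_mul_of_one_le_right (by positivity) h6
      _ = η / 4 * ((N : ℝ) ^ ((1 + κ) / 2) * (N : ℝ) ^ ((1 - κ) / 2)) := by ring
      _ = η / 4 * N := by rw [← h5]
  have h4 : (n0 : ℝ) ≤ η / 4 * N := by
    have h5 : (N3 : ℝ) ≤ N := by
      have : N3 ≤ N := by omega
      exact_mod_cast this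
    have h6 := hN3.trans h5
    rw [div_le_iff₀ hη] at h6
    linarith
  have h5 : (A.card : ℝ) ≤ n0 + B.card := by exact_mod_cast hcard
  have h6 : 12 * (N : ℝ) * (∑ q ∈ Icc 1 ⌊(N : ℝ) ^ κ⌋₊, φ q) ≤ 12 * N * (η / 48) := by gcongr
  linarith

end Pool.Agent.N251.IM
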