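import Mathlib
import Pool.Agent.N251.IM.Main

/-!
# Lang's inequality for almost all multiples and almost all elements of a module
-/

set_option autoImplicit false

namespace Pool.Agent.N251.IM

open Finset Filter

/-- Lang's inequality for the denominators up to `Q`. -/
def LangUpTo (Q c ε α : ℝ) : Prop := ∀ (p : ℤ) (q : ℕ), 2 ≤ q → (q : ℝ) ≤ Q →
  c / ((q : ℝ) ^ 2 * Real.log q ^ (1 + ε)) < |α - (p : ℝ) / q|

theorem lang_count (ε η : ℝ) (hε : 0 < ε) (hη : 0 < η) :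
    ∃ c : ℝ, 0 < c ∧ ∀ ξ : ℝ, Roth ξ → ∀ κ : ℝ, κ < 1 → ∃ N0 : ℕ, ∀ N : ℕ, N0 ≤ N → ∀ (ρ : ℝ)
      (A : Finset ℕ), (∀ n ∈ A, 1 ≤ n ∧ n ≤ N ∧ ¬ LangUpTo ((N : ℝ) ^ κ) c ε (n * ξ + ρ)) →
      (A.card : ℝ) ≤ η * N := by
  set Z : ℝ := ∑' q : ℕ, N965.LN.lang ε q with hZ
  have hs := N965.LN.lang_summable ε hε
  have hZ0 : 0 ≤ Z := tsum_nonneg (N965.LN.lang_nonneg ε)
  set c : ℝ := η / (24 * (Z + 1)) with hc
  have hc0 : 0 < c := by positivity
  refine ⟨c, hc0, fun ξ hroth κ hκ => ?_⟩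
  obtain ⟨N1, hN1⟩ := count ξ hroth κ ((1 + κ) / 2) hκ (by linarith)
  have hlim : Tendsto (fun N : ℕ => (N : ℝ) ^ ((1 - κ) / 2)) atTop atTop :=
    (tendsto_rpow_atTop (by linarith)).comp tendsto_natCast_atTop_atTop
  obtain ⟨N2, hN2⟩ := eventually_atTop.1 (hlim.eventually_ge_atTop (2 / η))
  refine ⟨N1 + N2 + 1, fun N hN ρ A hA => ?_⟩
  have hNR : (0 : ℝ) < N := by
    have : 0 < N := by omega
    exact_mod_cast this
  have h1 := hN1 N (by omega) ρ (fun q => c * N965.LN.lang ε q)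
    (fun q => mul_nonneg hc0.le (N965.LN.lang_nonneg ε q)) A (by
    intro n hn
    obtain ⟨h1, h2, h3⟩ := hA n hn
    unfold LangUpTo at h3
    push Not at h3
    obtain ⟨p, q, h4, h5, h6⟩ := h3
    refine ⟨h1, h2, p, q, by omega, h5, h6.trans (le_of_eq ?_)⟩
    rw [mul_div_assoc, N965.LN.lang_eq ε q h4, mul_one_div])
  have h2 : ∑ q ∈ Icc 1 ⌊(N : ℝ) ^ κ⌋₊, c * N965.LN.lang ε q ≤ η / 24 := by
    rw [← Finset.mul_sum]
    have h3 : ∑ q ∈ Icc 1 ⌊(N : ℝ) ^ κ⌋₊, N965.LN.lang ε q ≤ Z + 1 := by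
      have := hs.sum_le_tsum (Icc 1 ⌊(N : ℝ) ^ κ⌋₊) (fun k _ => N965.LN.lang_nonneg ε k)
      linarith
    calc c * ∑ q ∈ Icc 1 ⌊(N : ℝ) ^ κ⌋₊, N965.LN.lang ε q ≤ c * (Z + 1) := by gcongr
      _ = η / 24 := by
        rw [hc]
        field_simp
  have h3 : (N : ℝ) ^ ((1 + κ) / 2) ≤ η / 2 * N := by
    have h4 := hN2 N (by omega)
    have h5 : (N : ℝ) = (N : ℝ) ^ ((1 + κ) / 2) * (N : ℝ) ^ ((1 - κ) / 2) := by
      rw [← Real.rpow_add hNR]
      have : (1 + κ) / 2 + (1 - κ) / 2 = 1 := by ring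
      rw [this, Real.rpow_one]
    have h6 : 1 ≤ η / 2 * (N : ℝ) ^ ((1 - κ) / 2) := by
      rw [div_le_iff₀ hη] at h4
      linarith
    calc (N : ℝ) ^ ((1 + κ) / 2) ≤ (N : ℝ) ^ ((1 + κ) / 2) * (η / 2 * (N : ℝ) ^ ((1 - κ) / 2)) :=
          le_mul_of_one_le_right (by positivity) h6
      _ = η / 2 * ((N : ℝ) ^ ((1 + κ) / 2) * (N : ℝ) ^ ((1 - κ) / 2)) := by ring
      _ = η / 2 * N := by rw [← h5]
  have h6 : 12 * (N : ℝ) * (∑ q ∈ Icc 1 ⌊(N : ℝ) ^ κ⌋₊, c * N965.LN.lang ε q) ≤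
      12 * N * (η / 24) := by gcongr
  linarith

/-- Elements of a finitely generated module of real numbers. -/
theorem box (k : ℕ) (ε η : ℝ) (hε : 0 < ε) (hη : 0 < η) :
    ∃ c : ℝ, 0 < c ∧ ∀ (e : Fin k → ℝ) (i0 : Fin k), Roth (e i0) → ∀ κ : ℝ, 0 ≤ κ → κ < 1 →
      ∃ H0 : ℕ, ∀ H : ℕ, H0 ≤ H → ∀ (σ : ℝ) (A : Finset (Fin k → ℤ)),
        (∀ a ∈ A, (∀ i, |a i| ≤ (H : ℤ)) ∧
          ¬ LangUpTo ((H : ℝ) ^ κ) c ε (∑ i, (a i : ℝ) * e i + σ)) →
        (A.card : ℝ) ≤ η * (H : ℝ) ^ k := by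
  classical
  obtain ⟨c, hc, hmain⟩ := lang_count ε (η / 3 ^ k) hε (by positivity)
  refine ⟨c, hc, fun e i0 hroth κ hκ0 hκ => ?_⟩
  obtain ⟨N0, hN0⟩ := hmain (e i0) hroth κ hκ
  refine ⟨N0 + 1, fun H hH σ A hA => ?_⟩
  have hHR : (1 : ℝ) ≤ H := by
    have : 1 ≤ H := by omega
    exact_mod_cast this
  have hk : 1 ≤ k := by
    have := i0.2
    omega
  set F : (Fin k → ℤ) → ({j : Fin k // j ≠ i0} → ℤ) := fun a j => a j with hF
  have hfib : ∀ b ∈ A.image F, (A.filter (fun a => F a = b)).card ≤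
      ⌊η / 3 ^ k * ((2 * H + 1 : ℕ) : ℝ)⌋₊ := by
    intro b _
    rw [Nat.le_floor_iff (by positivity)]
    set T : Finset ℕ := (A.filter (fun a => F a = b)).image
      (fun a : Fin k → ℤ => (a i0 + (H : ℤ) + 1).toNat) with hT
    have hcard : (A.filter (fun a => F a = b)).card = T.card := by
      rw [hT, Finset.card_image_of_injOn]
      intro a ha a' ha' heq
      rw [Finset.mem_coe, Finset.mem_filter] at ha ha'
      have h1 := abs_le.1 ((hA a ha.1).1 i0)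
      have h2 := abs_le.1 ((hA a' ha'.1).1 i0)
      have h3 : a i0 = a' i0 := by
        have : (a i0 + (H : ℤ) + 1).toNat = (a' i0 + (H : ℤ) + 1).toNat := heq
        omega
      funext j
      by_cases hj : j = i0
      · rw [hj, h3]
      · have h4 : F a ⟨j, hj⟩ = F a' ⟨j, hj⟩ := by rw [ha.2, ha'.2]
        exact h4
    rw [hcard]
    refine hN0 (2 * H + 1) (by omega)
      ((∑ j : {j : Fin k // j ≠ i0}, (b j : ℝ) * e j) + σ - (H + 1) * e i0) T ?_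
    intro n hn
    rw [hT, Finset.mem_image] at hn
    obtain ⟨a, ha, rfl⟩ := hn
    rw [Finset.mem_filter] at ha
    have h1 := abs_le.1 ((hA a ha.1).1 i0)
    refine ⟨by omega, by omega, ?_⟩
    intro hL
    apply (hA a ha.1).2
    intro p q hq hqH
    have h2 := hL p q hq (hqH.trans (Real.rpow_le_rpow (by positivity) (by push_cast; linarith)
      hκ0))
    have h3 : (((a i0 + (H : ℤ) + 1).toNat : ℕ) : ℝ) = (a i0 : ℝ) + H + 1 := by
      have h4 : (((a i0 + (H : ℤ) + 1).toNat : ℕ) : ℤ) = a i0 + H + 1 := Int.toNat_of_nonneg (by omega)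
      exact_mod_cast congrArg (fun z : ℤ => (z : ℝ)) h4
    have h5 : (((a i0 + (H : ℤ) + 1).toNat : ℕ) : ℝ) * e i0 +
        ((∑ j : {j : Fin k // j ≠ i0}, (b j : ℝ) * e j) + σ - (H + 1) * e i0) =
        ∑ i, (a i : ℝ) * e i + σ := by
      rw [h3, ← ha.2]
      have h6 : ∑ i, (a i : ℝ) * e i = (a i0 : ℝ) * e i0 +
          ∑ j : {j : Fin k // j ≠ i0}, (F a j : ℝ) * e j := by
        rw [← Finset.add_sum_erase _ _ (Finset.mem_univ i0)]
        congr 1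
        exact (Finset.sum_subtype _ (by simp) (fun j => (a j : ℝ) * e j))
      rw [h6]
      ring
    rw [h5] at h2
    exact h2
  have h1 := Finset.card_le_mul_card_image A _ hfib
  have h2 : (A.image F).card ≤ (2 * H + 1) ^ (k - 1) := by
    have hsub : A.image F ⊆ Fintype.piFinset (fun _ => Icc (-(H : ℤ)) H) := by
      intro b hb
      rw [Finset.mem_image] at hb
      obtain ⟨a, ha, rfl⟩ := hb
      rw [Fintype.mem_piFinset]
      intro j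
      rw [Finset.mem_Icc]
      exact abs_le.1 ((hA a ha).1 j)
    refine (Finset.card_le_card hsub).trans (le_of_eq ?_)
    rw [Fintype.card_piFinset, Finset.prod_const, Int.card_Icc, Finset.card_univ]
    congr 1
    · omega
    · simp
  have h3 : (A.card : ℝ) ≤ (⌊η / 3 ^ k * ((2 * H + 1 : ℕ) : ℝ)⌋₊ : ℝ) *
      (((2 * H + 1) ^ (k - 1) : ℕ) : ℝ) := by
    exact_mod_cast h1.trans (Nat.mul_le_mul_left _ h2)
  calc (A.card : ℝ) ≤ (⌊η / 3 ^ k * ((2 * H + 1 : ℕ) : ℝ)⌋₊ : ℝ) *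
      (((2 * H + 1) ^ (k - 1) : ℕ) : ℝ) := h3
    _ ≤ (η / 3 ^ k * ((2 * H + 1 : ℕ) : ℝ)) * (((2 * H + 1) ^ (k - 1) : ℕ) : ℝ) := by
        gcongr
        exact Nat.floor_le (by positivity)
    _ = η / 3 ^ k * (2 * (H : ℝ) + 1) ^ k := by
        obtain ⟨l, rfl⟩ : ∃ l, k = l + 1 := ⟨k - 1, by omega⟩
        rw [Nat.add_sub_cancel, pow_succ (2 * (H : ℝ) + 1) l]
        push_cast
        ring
    _ ≤ η / 3 ^ k * (3 * H) ^ k := by
        gcongr
        linarith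
    _ = η * (H : ℝ) ^ k := by
        rw [mul_pow]
        field_simp

end Pool.Agent.N251.IM
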